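import Mathlib

set_option autoImplicit false

/-!
# The semigroup condition for `(15 n)! (2 n)! / ((10 n)! (4 n)! (3 n)!)`
-/

namespace Pool.Agent.TH416.CI

open scoped Pointwise

/-- small doubling sets containing the identity: the product set is closed under products -/
theorem mul_closed_of_small {G : Type*} [Group G] [DecidableEq G] (B : Finset G) (h1 : (1 : G) ∈ B)
    (h : 2 * (B * B).card < 3 * B.card) : ∀ x ∈ B * B, ∀ y ∈ B * B, x * y ∈ B * B := by
  have h' : ((B * B).card : ℚ) < (3 / 2 : ℚ) * B.card := by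
    have : (2 * (B * B).card : ℚ) < 3 * B.card := by exact_mod_cast h
    linarith
  have h2 := Finset.smul_inv_mul_opSMul_eq_mul_of_doubling_lt_three_halves h' h1
  rw [MulOpposite.op_one, one_smul, one_smul] at h2
  have h3 := Finset.invMulSubgroup_eq_inv_mul B h'
  intro x hx y hy
  rw [← h2] at hx hy ⊢
  have hx' : x ∈ Finset.invMulSubgroup B h' := by
    rw [← SetLike.mem_coe, h3]
    exact_mod_cast hx
  have hy' : y ∈ Finset.invMulSubgroup B h' := by
    rw [← SetLike.mem_coe, h3]
    exact_mod_cast hy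
  have := mul_mem hx' hy'
  rw [← SetLike.mem_coe, h3] at this
  exact_mod_cast this

theorem add_closed_of_small {G : Type*} [AddGroup G] [DecidableEq G] (B : Finset G)
    (h1 : (0 : G) ∈ B)
    (h : 2 * (B + B).card < 3 * B.card) : ∀ x ∈ B + B, ∀ y ∈ B + B, x + y ∈ B + B := by
  classical
  have e : (B.image Multiplicative.ofAdd) * (B.image Multiplicative.ofAdd) =
      (B + B).image Multiplicative.ofAdd := by
    ext x
    simp only [Finset.mem_mul, Finset.mem_image, Finset.mem_add]
    constructor
    · rintro ⟨_, ⟨a, ha, rfl⟩, _, ⟨b, hb, rfl⟩, rfl⟩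
      exact ⟨a + b, ⟨a, ha, b, hb, rfl⟩, rfl⟩
    · rintro ⟨_, ⟨a, ha, b, hb, rfl⟩, rfl⟩
      exact ⟨_, ⟨a, ha, rfl⟩, _, ⟨b, hb, rfl⟩, rfl⟩
  have h2 := mul_closed_of_small (B.image Multiplicative.ofAdd)
    (Finset.mem_image.2 ⟨0, h1, rfl⟩) (by
      rw [e, Finset.card_image_of_injective _ Multiplicative.ofAdd.injective,
        Finset.card_image_of_injective _ Multiplicative.ofAdd.injective]
      exact h)
  rw [e] at h2
  intro x hx y hy
  have h3 := h2 _ (Finset.mem_image_of_mem _ hx) _ (Finset.mem_image_of_mem _ hy)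
  obtain ⟨z, hz, hz'⟩ := Finset.mem_image.1 h3
  have : z = x + y := Multiplicative.ofAdd.injective hz'
  rwa [← this]

/-- if `B + B` is closed under addition in `ZMod M`, it is the set of multiples of some `g ∣ M` -/
theorem exists_gen {M : ℕ} (hM : 0 < M) (S : Finset (ZMod M)) (h0 : (0 : ZMod M) ∈ S)
    (hS : ∀ x ∈ S, ∀ y ∈ S, x + y ∈ S) :
    ∃ g : ℕ, 0 < g ∧ g ∣ M ∧ ∀ x : ℕ, (x : ZMod M) ∈ S ↔ g ∣ x := by
  have : NeZero M := ⟨hM.ne'⟩
  have hmul : ∀ (n : ℕ) (x : ZMod M), x ∈ S → n • x ∈ S := by
    intro n x hx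
    induction n with
    | zero => simpa using h0
    | succ n ih => rw [succ_nsmul]; exact hS _ ih _ hx
  let H : AddSubgroup ℤ :=
    { carrier := {z : ℤ | (z : ZMod M) ∈ S}
      add_mem' := by
        intro a b ha hb
        simp only [Set.mem_ofPred_eq, Int.cast_add] at *
        exact hS _ ha _ hb
      zero_mem' := by simpa using h0
      neg_mem' := by
        intro a ha
        simp only [Set.mem_ofPred_eq, Int.cast_neg] at *
        have h1 := hmul (M - 1) _ ha
        have h2 : (M - 1) • (a : ZMod M) = -(a : ZMod M) := by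
          rw [eq_neg_iff_add_eq_zero, ← succ_nsmul, Nat.sub_add_cancel hM]
          simp
        rwa [h2] at h1 }
  obtain ⟨g, hg⟩ := Int.subgroup_cyclic H
  have hiff : ∀ x : ℕ, (x : ZMod M) ∈ S ↔ g.natAbs ∣ x := by
    intro x
    have h1 : (x : ZMod M) ∈ S ↔ (x : ℤ) ∈ H := by
      change _ ↔ (((x : ℤ) : ZMod M)) ∈ S
      rw [Int.cast_natCast]
    rw [h1, hg, AddSubgroup.mem_closure_singleton, ← Int.natCast_dvd_natCast, Int.natAbs_dvd]
    constructor
    · rintro ⟨n, hn⟩
      exact ⟨n, by rw [← hn, smul_eq_mul, mul_comm]⟩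
    · rintro ⟨n, hn⟩
      exact ⟨n, by rw [hn, smul_eq_mul, mul_comm]⟩
  have hgM : g.natAbs ∣ M := by
    rw [← hiff]
    simpa using h0
  exact ⟨g.natAbs, Nat.pos_of_dvd_of_pos hgM hM, hgM, hiff⟩

/-- Landau's inequality for `(15 n)! (2 n)! / ((10 n)! (4 n)! (3 n)!)` -/
theorem landau (n g : ℕ) :
    10 * n / g + 4 * n / g + 3 * n / g ≤ 15 * n / g + 2 * n / g := by
  have h : ∀ a b : ℕ, 0 < a → a * b = 60 → b * n / g = (60 * n / g) / a := by
    intro a b ha hab
    rw [Nat.div_div_eq_div_mul, ← hab, mul_assoc, mul_comm g a, Nat.mul_div_mul_left _ _ ha]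
  rw [h 6 10 (by norm_num) rfl, h 15 4 (by norm_num) rfl, h 20 3 (by norm_num) rfl,
    h 4 15 (by norm_num) rfl, h 30 2 (by norm_num) rfl]
  generalize 60 * n / g = U
  have hU : U = 60 * (U / 60) + U % 60 := (Nat.div_add_mod U 60).symm
  have hr : U % 60 < 60 := Nat.mod_lt _ (by norm_num)
  generalize U / 60 = q at *
  generalize U % 60 = r at *
  subst hU
  have h1 : ∀ r < 60, r / 6 + r / 15 + r / 20 ≤ r / 4 + r / 30 := by decide
  have h2 := h1 r hr
  omega

open Classical in
/-- elements of the window lying in the semigroup generated by `A` -/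
noncomputable def win (n : ℕ) (A : Finset ℕ) : Finset ℕ :=
  (Finset.Ioc (10 * n) (15 * n)).filter (fun b => b ∈ AddSubmonoid.closure (A : Set ℕ))

theorem win_card_one (n : ℕ) (a : ℕ) (h1 : 2 * n < a) (h2 : a ≤ 3 * n) :
    2 ≤ (win n {a}).card := by
  classical
  have hmem : ∀ c : ℕ, c * a ∈ AddSubmonoid.closure ((({a} : Finset ℕ) : Set ℕ)) := by
    intro c
    rw [← smul_eq_mul]
    exact AddSubmonoid.nsmul_mem _ (AddSubmonoid.subset_closure (by simp)) c
  rcases le_or_gt (2 * a) (5 * n) with h | h
  · have hsub : ({5 * a, 6 * a} : Finset ℕ) ⊆ win n {a} := by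
      intro x hx
      simp only [Finset.mem_insert, Finset.mem_singleton] at hx
      rw [win, Finset.mem_filter, Finset.mem_Ioc]
      rcases hx with rfl | rfl
      · exact ⟨by omega, hmem 5⟩
      · exact ⟨by omega, hmem 6⟩
    refine le_trans ?_ (Finset.card_le_card hsub)
    rw [Finset.card_pair (by omega)]
  · have hsub : ({4 * a, 5 * a} : Finset ℕ) ⊆ win n {a} := by
      intro x hx
      simp only [Finset.mem_insert, Finset.mem_singleton] at hx
      rw [win, Finset.mem_filter, Finset.mem_Ioc]
      rcases hx with rfl | rfl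
      · exact ⟨by omega, hmem 4⟩
      · exact ⟨by omega, hmem 5⟩
    refine le_trans ?_ (Finset.card_le_card hsub)
    rw [Finset.card_pair (by omega)]

theorem win_card_five (n : ℕ) (A B : Finset ℕ) (hBA : B ⊆ A) (hB : B.Nonempty)
    (h : ∀ a ∈ B, 2 * n < a ∧ a ≤ 3 * n) : 5 * B.card - 4 ≤ (win n A).card := by
  classical
  have hsub : B + B + B + B + B ⊆ win n A := by
    intro x hx
    simp only [Finset.mem_add] at hx
    obtain ⟨_, ⟨_, ⟨_, ⟨a, ha, b, hb, rfl⟩, c, hc, rfl⟩, d, hd, rfl⟩, e, he, rfl⟩ := hx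
    have h1 := h a ha
    have h2 := h b hb
    have h3 := h c hc
    have h4 := h d hd
    have h5 := h e he
    rw [win, Finset.mem_filter, Finset.mem_Ioc]
    refine ⟨by omega, ?_⟩
    have hc : ∀ y ∈ B, y ∈ AddSubmonoid.closure (A : Set ℕ) := fun y hy =>
      AddSubmonoid.subset_closure (by exact_mod_cast hBA hy)
    exact add_mem (add_mem (add_mem (add_mem (hc _ ha) (hc _ hb)) (hc _ ‹_›)) (hc _ hd)) (hc _ he)
  have h2 := cauchy_davenport_add_of_linearOrder_isCancelAdd hB hB
  have h3 := cauchy_davenport_add_of_linearOrder_isCancelAdd (hB.add hB) hB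
  have h4 := cauchy_davenport_add_of_linearOrder_isCancelAdd ((hB.add hB).add hB) hB
  have h5 := cauchy_davenport_add_of_linearOrder_isCancelAdd (((hB.add hB).add hB).add hB) hB
  have h6 := Finset.card_le_card hsub
  have h7 := hB.card_pos
  omega

theorem win_card (n : ℕ) (hn : 0 < n) (A : Finset ℕ) (hA : ∀ a ∈ A, 1 ≤ a ∧ a ≤ 4 * n) :
    A.card + (A.filter (fun a => 2 * n < a ∧ a ≤ 3 * n)).card ≤ (win n A).card := by
  classical
  set A₁ := A.filter (fun a => 2 * n < a ∧ a ≤ 3 * n) with hA₁
  rcases A.eq_empty_or_nonempty with rfl | hne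
  · simp [hA₁]
  have hsub₁ : A₁ ⊆ A := Finset.filter_subset _ _
  rcases le_or_gt (2 * A₁.card) A.card with hk | hk
  · -- the main case: few elements in the doubled range
    obtain ⟨M, hMA, hM⟩ : ∃ M ∈ A, ∀ a ∈ A, a ≤ M := ⟨A.max' hne, A.max'_mem hne, fun a ha => A.le_max' a ha⟩
    have hM1 := hA M hMA
    have hNZ : NeZero M := ⟨by omega⟩
    -- the criterion for belonging to the semigroup
    have hcrit : ∀ x a a' : ℕ, a ∈ A → a' ∈ A → a + a' ≤ x → (x : ZMod M) = (a : ZMod M) + a' →
        x ∈ AddSubmonoid.closure (A : Set ℕ) := by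
      intro x a a' ha ha' hx hxm
      have h1 : ((x - (a + a') : ℕ) : ZMod M) = 0 := by
        rw [Nat.cast_sub hx, hxm, Nat.cast_add, sub_self]
      rw [ZMod.natCast_eq_zero_iff] at h1
      obtain ⟨j, hj⟩ := h1
      have h2 : x = a + a' + j * M := by
        rw [mul_comm] at hj
        omega
      rw [h2]
      have hc : ∀ y ∈ A, y ∈ AddSubmonoid.closure (A : Set ℕ) := fun y hy =>
        AddSubmonoid.subset_closure (by exact_mod_cast hy)
      refine add_mem (add_mem (hc _ ha) (hc _ ha')) ?_
      rw [← smul_eq_mul]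
      exact AddSubmonoid.nsmul_mem _ (hc _ hMA) j
    set B : Finset (ZMod M) := A.image (fun a : ℕ => (a : ZMod M)) with hB
    have hBcard : B.card = A.card := by
      apply Finset.card_image_of_injOn
      intro a ha a' ha' haa
      have h1 := hA a ha
      have h2 := hA a' ha'
      have h3 := hM a ha
      have h4 := hM a' ha'
      simp only at haa
      rw [ZMod.natCast_eq_natCast_iff'] at haa
      rcases h3.lt_or_eq with h3 | h3
      · rcases h4.lt_or_eq with h4 | h4
        · rwa [Nat.mod_eq_of_lt h3, Nat.mod_eq_of_lt h4] at haa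
        · rw [Nat.mod_eq_of_lt h3, h4, Nat.mod_self] at haa
          omega
      · rcases h4.lt_or_eq with h4 | h4
        · rw [Nat.mod_eq_of_lt h4, h3, Nat.mod_self] at haa
          omega
        · omega
    have h0B : (0 : ZMod M) ∈ B := Finset.mem_image.2 ⟨M, hMA, by simp⟩
    -- the window contains at least `|B + B|` elements
    have hwin : (B + B).card ≤ (win n A).card := by
      apply Finset.card_le_card_of_injOn (fun s => 15 * n - ((15 * n : ℕ) - s : ZMod M).val)
      · intro s hs
        have hs' : s ∈ B + B := hs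
        rw [Finset.mem_add] at hs'
        obtain ⟨b, hb, b', hb', rfl⟩ := hs'
        obtain ⟨a, ha, rfl⟩ := Finset.mem_image.1 hb
        obtain ⟨a', ha', rfl⟩ := Finset.mem_image.1 hb'
        have hv := ZMod.val_lt (((15 * n : ℕ) : ZMod M) - ((a : ZMod M) + (a' : ZMod M)))
        have h1 := hM a ha
        have h2 := hM a' ha'
        rw [Finset.mem_coe, win, Finset.mem_filter, Finset.mem_Ioc]
        beta_reduce
        refine ⟨by omega, hcrit _ a a' ha ha' (by omega) ?_⟩
        rw [Nat.cast_sub (by omega), ZMod.natCast_zmod_val]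
        ring
      · intro s hs s' hs' hss
        have hv := ZMod.val_lt (((15 * n : ℕ) : ZMod M) - s)
        have hv' := ZMod.val_lt (((15 * n : ℕ) : ZMod M) - s')
        simp only at hss
        have h1 : (((15 * n : ℕ) : ZMod M) - s).val = (((15 * n : ℕ) : ZMod M) - s').val := by
          omega
        have h2 := ZMod.val_injective M h1
        exact sub_right_injective h2
    by_cases hsm : 2 * (B + B).card < 3 * B.card
    · obtain ⟨g, hg, hgM, hgS⟩ := exists_gen (M := M) (by omega) (B + B)
        (by simpa using Finset.add_mem_add h0B h0B) (add_closed_of_small B h0B hsm)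
      -- everything is a multiple of `g`
      have hgA : ∀ a ∈ A, g ∣ a := by
        intro a ha
        rw [← hgS]
        have := Finset.add_mem_add (Finset.mem_image_of_mem (fun a : ℕ => (a : ZMod M)) ha) h0B
        simpa using this
      have hmulwin : (Finset.Ioc (10 * n) (15 * n)).filter (fun b => g ∣ b) ⊆ win n A := by
        intro x hx
        rw [Finset.mem_filter] at hx
        obtain ⟨hx1, hx2⟩ := hx
        rw [win, Finset.mem_filter]
        refine ⟨hx1, ?_⟩
        rw [Finset.mem_Ioc] at hx1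
        rw [← hgS, Finset.mem_add] at hx2
        obtain ⟨b, hb, b', hb', hbb⟩ := hx2
        obtain ⟨a, ha, rfl⟩ := Finset.mem_image.1 hb
        obtain ⟨a', ha', rfl⟩ := Finset.mem_image.1 hb'
        have h1 := hA a ha
        have h2 := hA a' ha'
        exact hcrit x a a' ha ha' (by omega) hbb.symm
      have hcount : ∀ u v : ℕ, u ≤ v →
          ((Finset.Ioc u v).filter (fun b => g ∣ b)).card = v / g - u / g := by
        intro u v huv
        have h1 : (Finset.Ioc 0 v).filter (fun b => g ∣ b) =
            (Finset.Ioc 0 u).filter (fun b => g ∣ b) ∪ (Finset.Ioc u v).filter (fun b => g ∣ b) := by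
          rw [← Finset.filter_union, Finset.Ioc_union_Ioc_eq_Ioc (Nat.zero_le _) huv]
        have h2 : Disjoint ((Finset.Ioc 0 u).filter (fun b => g ∣ b))
            ((Finset.Ioc u v).filter (fun b => g ∣ b)) := by
          rw [Finset.disjoint_left]
          intro x hx hx'
          rw [Finset.mem_filter, Finset.mem_Ioc] at hx hx'
          omega
        have h3 := congrArg Finset.card h1
        rw [Finset.card_union_of_disjoint h2, Nat.Ioc_filter_dvd_card_eq_div,
          Nat.Ioc_filter_dvd_card_eq_div] at h3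
        omega
      have hA4 : A ⊆ (Finset.Ioc 0 (4 * n)).filter (fun b => g ∣ b) := by
        intro a ha
        rw [Finset.mem_filter, Finset.mem_Ioc]
        have := hA a ha
        exact ⟨by omega, hgA a ha⟩
      have hA3 : A₁ ⊆ (Finset.Ioc (2 * n) (3 * n)).filter (fun b => g ∣ b) := by
        intro a ha
        rw [hA₁, Finset.mem_filter] at ha
        rw [Finset.mem_filter, Finset.mem_Ioc]
        exact ⟨by omega, hgA a ha.1⟩
      have e1 := Finset.card_le_card hA4
      have e2 := Finset.card_le_card hA3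
      have e3 := Finset.card_le_card hmulwin
      rw [hcount _ _ (by omega)] at e1 e2 e3
      have e4 := landau n g
      have e5 : 2 * n / g ≤ 3 * n / g := Nat.div_le_div_right (by omega)
      have e6 : 10 * n / g ≤ 15 * n / g := Nat.div_le_div_right (by omega)
      rw [Nat.zero_div] at e1
      omega
    · omega
  · -- many elements in the doubled range
    have hne₁ : A₁.Nonempty := by
      rw [← Finset.card_pos]
      omega
    have h5 := win_card_five n A A₁ hsub₁ hne₁ (fun a ha => (Finset.mem_filter.1 ha).2)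
    have hpos := hne₁.card_pos
    rcases Nat.lt_or_ge 1 A₁.card with h1 | h1
    · omega
    · have hcA : A.card = 1 := by
        have := hne.card_pos
        omega
      obtain ⟨a, rfl⟩ := Finset.card_eq_one.1 hcA
      have ha : a ∈ A₁ := by
        obtain ⟨b, hb⟩ := hne₁
        have := hsub₁ hb
        rw [Finset.mem_singleton] at this
        rwa [this] at hb
      have ha' := (Finset.mem_filter.1 ha).2
      have := win_card_one n a ha'.1 ha'.2
      rw [Finset.card_singleton]
      omega

end Pool.Agent.TH416.CI
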