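import Pool.Agent.TH416.CI.Graded

set_option autoImplicit false

/-!
# Nonnegativity of quotients `∏ (1 - q ^ b_j) / ∏ (1 - q ^ a_i)` from weighted complete intersections
-/

namespace Pool.Agent.TH416.CI

open RingTheory.Sequence IsLocalRing Pointwise MvPolynomial Module

variable {ι : Type} {k : Type} [Field k]

/-- in the final stage every variable is nilpotent modulo the regular sequence -/
theorem Inv.nilp [Fintype ι] {w : ι → ℕ} (hw : ∀ i, 0 < w i) {bs : List ℕ}
    {fs : List (MvPolynomial ι k)} (h : Inv w bs fs)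
    (hcond : ∀ I : Finset ι, I.card ≤ bs.countP (fun b => @decide (InSg w I b) (Classical.dec _)))
    (i : ι) : ∃ n : ℕ, (X i : MvPolynomial ι k) ^ n ∈ Ideal.ofList fs := by
  classical
  have hdim : ∀ P : Ideal (Loc ι k), P.IsPrime → (∀ f ∈ fs, toLoc f ∈ P) →
      P = maximalIdeal (Loc ι k) := by
    intro P hP hfP
    let I : Finset ι := Finset.univ.filter (fun i => toLoc (X i : MvPolynomial ι k) ∉ P)
    have h1 := h.dim I P hP (by intro i; simp [I]) hfP
    have h2 := hcond I
    have hPm : P ≤ maximalIdeal (Loc ι k) := le_maximalIdeal hP.ne_top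
    by_contra hne
    obtain ⟨f, hf, hf'⟩ := SetLike.exists_of_lt (lt_of_le_of_ne hPm hne)
    have h3 := quot_drop (maximalIdeal (Loc ι k)) P hPm f hf hf'
    have h4 : (0 : WithBot ℕ∞) ≤ ringKrullDim (Loc ι k ⧸ maximalIdeal (Loc ι k)) := by
      have : Nontrivial (Loc ι k ⧸ maximalIdeal (Loc ι k)) :=
        Ideal.Quotient.nontrivial_iff.2 (Ideal.IsPrime.ne_top inferInstance)
      exact ringKrullDim_nonneg_of_nontrivial
    have h5 : (1 : WithBot ℕ∞) ≤ ringKrullDim (Loc ι k ⧸ P) := by
      refine le_trans ?_ h3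
      calc (1 : WithBot ℕ∞) = 0 + 1 := by simp
        _ ≤ _ := by gcongr
    have h6 : ((1 + I.card : ℕ) : WithBot ℕ∞) ≤ ((I.card : ℕ) : WithBot ℕ∞) := by
      refine le_trans ?_ h1
      rw [Nat.cast_add, Nat.cast_one]
      gcongr
    have h7 : 1 + I.card ≤ I.card := by exact_mod_cast h6
    omega
  have hrad : toLoc (X i : MvPolynomial ι k) ∈
      ((Ideal.ofList fs).map (toLoc (ι := ι) (k := k))).radical := by
    rw [Ideal.radical_eq_sInf, Submodule.mem_sInf]
    rintro P ⟨hP1, hP2⟩
    have h1 := hdim P hP2 (fun f hf => hP1 (Ideal.mem_map_of_mem _ (Ideal.subset_span hf)))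
    rw [h1, toLoc_mem]
    simp
  obtain ⟨n, hn⟩ := hrad
  rw [← map_pow, IsLocalization.algebraMap_mem_map_algebraMap_iff (orig ι k).primeCompl] at hn
  obtain ⟨s, hs, hsg⟩ := hn
  refine ⟨n, ?_⟩
  have hhom : ∀ g ∈ fs, ∃ c, IsWeightedHomogeneous w g c := by
    intro g hg
    obtain ⟨n, hn, rfl⟩ := List.mem_iff_getElem.1 hg
    have hlen := h.hom.length_eq
    exact ⟨bs[n]'(by omega), (List.forall₂_iff_get.1 h.hom).2 n hn (by omega)⟩
  have hX : IsWeightedHomogeneous w ((X i : MvPolynomial ι k) ^ n) (n • w i) :=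
    (isWeightedHomogeneous_X k w i).pow n
  have h3 := hom_span w {x | x ∈ fs} hhom _ hsg (n • w i)
  rw [whc_mul hX, if_pos le_rfl, Nat.sub_self,
    weightedHomogeneousComponent_zero _ (fun i => (hw i).ne')] at h3
  have hs0 : coeff 0 s ≠ 0 := hs
  have h4 := Ideal.mul_mem_left (Ideal.span {x | x ∈ fs}) (C (coeff 0 s)⁻¹) h3
  rw [← mul_assoc, ← C_mul, inv_mul_cancel₀ hs0, C_1, one_mul] at h4
  exact h4

theorem hJ_zero [Fintype ι] {w : ι → ℕ} (J : Ideal (MvPolynomial ι k))
    (hnil : ∀ i, ∃ n : ℕ, (X i : MvPolynomial ι k) ^ n ∈ J) :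
    ∃ E : ℕ, ∀ e, E ≤ e → hJ w J e = 0 := by
  classical
  choose n hn using hnil
  refine ⟨∑ i, n i * w i + 1, fun e he => ?_⟩
  have h1 : Jd w J e = weightedHomogeneousSubmodule k w e := by
    apply le_antisymm
    · exact inf_le_right
    · intro x hx
      refine ⟨?_, hx⟩
      change x ∈ J
      rw [MvPolynomial.as_sum x]
      refine Ideal.sum_mem _ fun d hd => ?_
      have hwd : Finsupp.weight w d = e := hx (mem_support_iff.1 hd)
      have hex : ∃ i, n i ≤ d i := by
        by_contra hcon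
        push Not at hcon
        have : Finsupp.weight w d ≤ ∑ i, n i * w i := by
          rw [Finsupp.weight_apply, Finsupp.sum_fintype _ _ (by simp)]
          refine Finset.sum_le_sum fun i _ => ?_
          rw [smul_eq_mul]
          exact Nat.mul_le_mul_right _ (hcon i).le
        omega
      obtain ⟨i, hi⟩ := hex
      have h2 : monomial d (coeff d x) =
          monomial (d - Finsupp.single i (n i)) (coeff d x) * X i ^ n i := by
        rw [X_pow_eq_monomial, monomial_mul, mul_one,
          tsub_add_cancel_of_le (Finsupp.single_le_iff.2 hi)]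
      rw [h2]
      exact Ideal.mul_mem_left _ _ (hn i)
  rw [hJ, h1, sub_self]

/-- **Main criterion.** -/
theorem ci_main [Fintype ι] (w : ι → ℕ) (hw : ∀ i, 0 < w i) (bs : List ℕ)
    (hlen : bs.length = Fintype.card ι) (hb : ∀ b ∈ bs, 0 < b)
    (hcond : ∀ I : Finset ι, I.card ≤ bs.countP (fun b => @decide (InSg w I b) (Classical.dec _))) :
    ∃ P : Polynomial ℤ, (∀ e, 0 ≤ P.coeff e) ∧
      (bs.map (fun b => (1 : Polynomial ℤ) - Polynomial.X ^ b)).prod =
        P * ∏ i, ((1 : Polynomial ℤ) - Polynomial.X ^ (w i)) := by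
  classical
  obtain ⟨fs, hfs⟩ := exists_inv (k := ℚ) w bs hlen hb hcond
  have hG : GReg w bs fs := greg_of hw fs bs hfs.hom hfs.reg hfs.mem
  have hH := Hs_of_GReg hw bs fs hG
  -- the variables
  set l : List ι := (Finset.univ : Finset ι).toList with hl
  have hGX : GReg w (l.map w) (l.map (X : ι → MvPolynomial ι ℚ)) := by
    refine greg_of hw _ _ ?_ ?_ ?_
    · rw [List.forall₂_map_left_iff, List.forall₂_map_right_iff]
      exact List.forall₂_same.2 (fun i _ => isWeightedHomogeneous_X ℚ w i)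
    · exact (isWeaklyRegular_X _ (Finset.nodup_toList _)).of_isLocalization (Loc ι ℚ)
        (orig ι ℚ).primeCompl
    · intro f hf
      obtain ⟨i, _, rfl⟩ := List.mem_map.1 hf
      simp
  have hHX := Hs_of_GReg hw _ _ hGX
  have hofX : Ideal.ofList (l.map (X : ι → MvPolynomial ι ℚ)) = orig ι ℚ := by
    rw [orig_eq, Ideal.ofList]
    congr 1
    ext x
    simp [hl]
  rw [hofX, Hs_orig hw] at hHX
  have hprodX : ((l.map w).map (fun b => (1 : PowerSeries ℤ) - PowerSeries.X ^ b)).prod =
      ∏ i, ((1 : PowerSeries ℤ) - PowerSeries.X ^ (w i)) := by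
    rw [List.map_map, hl, Finset.prod_map_toList]
    rfl
  rw [hprodX] at hHX
  have hfin : (bs.map (fun b => (1 : PowerSeries ℤ) - PowerSeries.X ^ b)).prod =
      Hs w (Ideal.ofList fs) * ∏ i, ((1 : PowerSeries ℤ) - PowerSeries.X ^ (w i)) := by
    rw [hH, mul_assoc, mul_comm (Hs w ⊥), ← hHX, mul_one]
  obtain ⟨E, hE⟩ := hJ_zero (w := w) (Ideal.ofList fs) (hfs.nilp hw hcond)
  refine ⟨∑ e ∈ Finset.range E, Polynomial.monomial e (hJ w (Ideal.ofList fs) e), ?_, ?_⟩
  · intro e
    rw [Polynomial.finsetSum_coeff]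
    refine Finset.sum_nonneg fun j _ => ?_
    rw [Polynomial.coeff_monomial]
    split_ifs
    · exact hJ_nonneg hw _ _
    · exact le_rfl
  · have hP : ((∑ e ∈ Finset.range E, Polynomial.monomial e (hJ w (Ideal.ofList fs) e) :
        Polynomial ℤ) : PowerSeries ℤ) = Hs w (Ideal.ofList fs) := by
      ext e
      rw [Polynomial.coeff_coe, Polynomial.finsetSum_coeff, Hs, PowerSeries.coeff_mk]
      simp only [Polynomial.coeff_monomial]
      rw [Finset.sum_ite_eq']
      split_ifs with he
      · rfl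
      · rw [Finset.mem_range, not_lt] at he
        exact (hE e he).symm
    apply Polynomial.coe_injective
    rw [Polynomial.coe_mul, hP]
    have h1 : (((bs.map (fun b => (1 : Polynomial ℤ) - Polynomial.X ^ b)).prod : Polynomial ℤ) : PowerSeries ℤ) =
        (bs.map (fun b => (1 : PowerSeries ℤ) - PowerSeries.X ^ b)).prod := by
      have h0 := map_list_prod (Polynomial.coeToPowerSeries.ringHom (R := ℤ))
        (bs.map (fun b => (1 : Polynomial ℤ) - Polynomial.X ^ b))
      rw [Polynomial.coeToPowerSeries.ringHom_apply] at h0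
      rw [h0, List.map_map]
      congr 1
      refine List.map_congr_left fun b _ => ?_
      simp
    have h2 : ((∏ i, ((1 : Polynomial ℤ) - Polynomial.X ^ (w i)) : Polynomial ℤ) :
        PowerSeries ℤ) = ∏ i, ((1 : PowerSeries ℤ) - PowerSeries.X ^ (w i)) := by
      have h0 := map_prod (Polynomial.coeToPowerSeries.ringHom (R := ℤ))
        (fun i => (1 : Polynomial ℤ) - Polynomial.X ^ (w i)) Finset.univ
      rw [Polynomial.coeToPowerSeries.ringHom_apply] at h0
      rw [h0]
      refine Finset.prod_congr rfl fun b _ => ?_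
      simp
    rw [h2]
    exact h1.trans hfin

end Pool.Agent.TH416.CI
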