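import Pool.Agent.TH416.CI.Setup

set_option autoImplicit false

/-!
# Choosing weighted homogeneous regular sequences
-/

namespace Pool.Agent.TH416.CI

open RingTheory.Sequence IsLocalRing Pointwise MvPolynomial

variable {ι : Type} {k : Type} [Field k]

/-- `b` is in the numerical semigroup generated by the weights of the variables in `I` -/
def InSg (w : ι → ℕ) (I : Finset ι) (b : ℕ) : Prop :=
  ∃ α : ι →₀ ℕ, α.support ⊆ I ∧ Finsupp.weight w α = b

theorem quot_drop {A : Type*} [CommRing A] (P Q : Ideal A) [Q.IsPrime] (hQP : Q ≤ P) (f : A)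
    (hf : f ∈ P) (hf' : f ∉ Q) : ringKrullDim (A ⧸ P) + 1 ≤ ringKrullDim (A ⧸ Q) := by
  apply ringKrullDim_succ_le_of_surjective (Ideal.Quotient.factor hQP)
    (Ideal.Quotient.factor_surjective hQP) (r := Ideal.Quotient.mk Q f)
  · rw [mem_nonZeroDivisors_iff_ne_zero]
    intro h0
    exact hf' (Ideal.Quotient.eq_zero_iff_mem.1 h0)
  · rw [Ideal.Quotient.factor_mk]
    exact Ideal.Quotient.eq_zero_iff_mem.2 hf

theorem ofList_le_of_ass {A : Type*} [CommRing A] [IsNoetherianRing A] (fs : List A) (Q : Ideal A)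
    (hQ : Q ∈ associatedPrimes A (A ⧸ (Ideal.ofList fs • (⊤ : Submodule A A)))) (g : A)
    (hg : g ∈ fs) : g ∈ Q := by
  rw [AssociatedPrimes.mem_iff, isAssociatedPrime_iff] at hQ
  obtain ⟨hQp, x, hx⟩ := hQ
  rw [hx, Submodule.mem_colon_singleton]
  obtain ⟨y, rfl⟩ := Submodule.Quotient.mk_surjective _ x
  rw [← Submodule.Quotient.mk_smul, Submodule.mem_bot, Submodule.Quotient.mk_eq_zero]
  exact Submodule.smul_mem_smul (Ideal.subset_span (by exact hg)) Submodule.mem_top

theorem exists_avoid [Infinite k] (w : ι → ℕ) (b : ℕ) (S : Set (Ideal (Loc ι k))) (hS : S.Finite)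
    (hS' : ∀ Q ∈ S, Q.IsPrime ∧ ∃ α : ι →₀ ℕ, Finsupp.weight w α = b ∧
      ∀ i ∈ α.support, toLoc (X i : MvPolynomial ι k) ∉ Q) :
    ∃ f : MvPolynomial ι k, IsWeightedHomogeneous w f b ∧ ∀ Q ∈ S, toLoc f ∉ Q := by
  classical
  let p : S → Submodule k (weightedHomogeneousSubmodule k w b) := fun Q =>
    (((Q.1.comap (toLoc (ι := ι) (k := k))).restrictScalars k).comap
      (weightedHomogeneousSubmodule k w b).subtype)
  have : Finite S := hS
  have hp : ∀ Q, p Q ≠ ⊤ := by
    rintro ⟨Q, hQ⟩ htop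
    obtain ⟨hQp, α, hα, hα'⟩ := hS' Q hQ
    have h1 : (⟨monomial α (1 : k), isWeightedHomogeneous_monomial w α 1 hα⟩ :
        weightedHomogeneousSubmodule k w b) ∈ p ⟨Q, hQ⟩ := by
      rw [htop]
      trivial
    have h2 : toLoc (monomial α (1 : k)) ∈ Q := h1
    rw [monomial_eq, C_1, one_mul, Finsupp.prod, map_prod] at h2
    rw [hQp.prod_mem_iff] at h2
    obtain ⟨i, hi, hi2⟩ := h2
    rw [map_pow] at hi2
    exact hα' i hi (hQp.mem_of_pow_mem _ hi2)
  obtain ⟨f, hf⟩ := Submodule.exists_forall_notMem_of_forall_ne_top p hp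
  refine ⟨f.1, f.2, fun Q hQ h => hf ⟨Q, hQ⟩ h⟩

/-- the invariant of the construction -/
structure Inv (w : ι → ℕ) (bs : List ℕ) (fs : List (MvPolynomial ι k)) : Prop where
  hom : List.Forall₂ (fun f b => IsWeightedHomogeneous w f b) fs bs
  reg : IsWeaklyRegular (Loc ι k) (fs.map toLoc)
  mem : ∀ f ∈ fs, constantCoeff f = 0
  dim : ∀ (I : Finset ι) (P : Ideal (Loc ι k)), P.IsPrime →
    (∀ i, toLoc (X i : MvPolynomial ι k) ∈ P ↔ i ∉ I) → (∀ f ∈ fs, toLoc f ∈ P) →
    ringKrullDim (Loc ι k ⧸ P) + ((bs.countP (fun b => @decide (InSg w I b) (Classical.dec _)) : ℕ) :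
      WithBot ℕ∞) ≤ ((I.card : ℕ) : WithBot ℕ∞)

theorem Inv.nil [Fintype ι] (w : ι → ℕ) : Inv (k := k) w [] [] where
  hom := List.Forall₂.nil
  reg := by simp
  mem := by simp
  dim := by
    intro I P hP hI _
    have := ringKrullDim_le_card I P (fun i hi => (hI i).2 hi)
    simpa using this

theorem exists_rs [Fintype ι] : ∃ rs : List (Loc ι k), rs.length = Fintype.card ι ∧
    (∀ r ∈ rs, r ∈ maximalIdeal (Loc ι k)) ∧ IsWeaklyRegular (Loc ι k) rs := by
  classical
  refine ⟨((Finset.univ : Finset ι).toList.map (X : ι → MvPolynomial ι k)).map toLoc, ?_, ?_, ?_⟩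
  · simp
  · intro r hr
    simp only [List.mem_map] at hr
    obtain ⟨_, ⟨i, _, rfl⟩, rfl⟩ := hr
    rw [toLoc_mem]
    simp
  · exact (isWeaklyRegular_X _ (Finset.nodup_toList _)).of_isLocalization (Loc ι k)
      (orig ι k).primeCompl

open Classical in
theorem Inv.step [Fintype ι] [Infinite k] (w : ι → ℕ) (bs : List ℕ)
    (fs : List (MvPolynomial ι k)) (h : Inv w bs fs) (b r : ℕ) (hb : 0 < b)
    (hr : bs.length + 1 + r = Fintype.card ι)
    (hcond : ∀ I : Finset ι, I.card ≤
      bs.countP (fun b => @decide (InSg w I b) (Classical.dec _)) + (if InSg w I b then 1 else 0) + r) :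
    ∃ f : MvPolynomial ι k, Inv w (bs ++ [b]) (fs ++ [f]) := by
  -- the finite set of primes to be avoided
  let sup : Ideal (Loc ι k) → Finset ι := fun Q =>
    Finset.univ.filter (fun i => toLoc (X i : MvPolynomial ι k) ∉ Q)
  let S₁ : Set (Ideal (Loc ι k)) := associatedPrimes (Loc ι k)
    (Loc ι k ⧸ (Ideal.ofList (fs.map toLoc) • (⊤ : Submodule (Loc ι k) (Loc ι k))))
  let K : Finset ι → Ideal (Loc ι k) := fun I => Ideal.span {x | x ∈ fs.map toLoc} ⊔
    Ideal.span ((fun i => toLoc (X i : MvPolynomial ι k)) '' {i | i ∉ I})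
  let S₂ : Set (Ideal (Loc ι k)) := ⋃ I : Finset ι, (K I).minimalPrimes
  have hS₁ : S₁.Finite := associatedPrimes.finite _ _
  have hS₂ : S₂.Finite := Set.finite_iUnion fun I =>
    (Ideal.finite_minimalPrimes_of_isNoetherianRing _ (K I))
  let S : Set (Ideal (Loc ι k)) := {Q ∈ S₁ ∪ S₂ | InSg w (sup Q) b}
  have hS : S.Finite := (hS₁.union hS₂).subset (Set.sep_subset _ _)
  have hprime : ∀ Q ∈ S₁ ∪ S₂, Q.IsPrime := by
    rintro Q (hQ | hQ)
    · exact IsAssociatedPrime.isPrime hQ
    · obtain ⟨I, hI⟩ := Set.mem_iUnion.1 hQ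
      exact hI.1.1
  obtain ⟨f, hf, hfS⟩ := exists_avoid (k := k) w b S hS (by
    rintro Q ⟨hQ, α, hα, hα'⟩
    refine ⟨hprime Q hQ, α, hα', fun i hi => ?_⟩
    have := hα hi
    simpa [sup] using this)
  have hf0 : constantCoeff f = 0 := by
    by_contra hne
    have := hf hne
    simp at this
    omega
  have hfm : toLoc f ∈ maximalIdeal (Loc ι k) := toLoc_mem.2 hf0
  have hlen : fs.length = bs.length := h.hom.length_eq
  refine ⟨f, ?_, ?_, ?_, ?_⟩
  · exact List.rel_append h.hom (List.Forall₂.cons hf List.Forall₂.nil)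
  · rw [List.map_append, isWeaklyRegular_append_iff]
    refine ⟨h.reg, ?_⟩
    rw [List.map_cons, List.map_nil, isWeaklyRegular_cons_iff]
    refine ⟨?_, IsWeaklyRegular.nil _ _⟩
    have hcompl := biUnion_associatedPrimes_eq_compl_regular (Loc ι k)
      (Loc ι k ⧸ (Ideal.ofList (fs.map toLoc) • (⊤ : Submodule (Loc ι k) (Loc ι k))))
    by_contra hnot
    have hmem : toLoc f ∈ {r : Loc ι k | IsSMulRegular
      (Loc ι k ⧸ (Ideal.ofList (fs.map toLoc) • (⊤ : Submodule (Loc ι k) (Loc ι k)))) r}ᶜ := hnot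
    rw [← hcompl] at hmem
    simp only [Set.mem_iUnion] at hmem
    obtain ⟨Q, hQ, hfQ⟩ := hmem
    have hQp : Q.IsPrime := IsAssociatedPrime.isPrime hQ
    have hnin : ¬ InSg w (sup Q) b := fun hin => hfS Q ⟨Or.inl hQ, hin⟩ hfQ
    have hdim := ass_dim_after (fs.map toLoc) (by
        intro g hg
        simp only [List.mem_map] at hg
        obtain ⟨g', hg', rfl⟩ := hg
        exact toLoc_mem.2 (h.mem g' hg')) (Loc ι k) (r + 1) (by
          obtain ⟨rs, h1, h2, h3⟩ := exists_rs (ι := ι) (k := k)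
          refine ⟨rs, ?_, h2, h3⟩
          rw [h1, List.length_map]
          omega) h.reg Q hQ
    have hfsQ : ∀ g ∈ fs, toLoc g ∈ Q := by
      intro g hg
      exact ofList_le_of_ass (fs.map toLoc) Q hQ _ (List.mem_map.2 ⟨g, hg, rfl⟩)
    have h3 := h.dim (sup Q) Q hQp (by intro i; simp [sup]) hfsQ
    have h4 := hcond (sup Q)
    rw [if_neg hnin] at h4
    have h5 : ((r + 1 : ℕ) : WithBot ℕ∞) + ((bs.countP (fun b => @decide (InSg w (sup Q) b) (Classical.dec _)) : ℕ) :
      WithBot ℕ∞) ≤ (((sup Q).card : ℕ) : WithBot ℕ∞) := le_trans (by gcongr) h3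
    have h6 : (r + 1) + bs.countP (fun b => @decide (InSg w (sup Q) b) (Classical.dec _)) ≤ (sup Q).card := by
      exact_mod_cast h5
    omega
  · intro g hg
    rcases List.mem_append.1 hg with hg | hg
    · exact h.mem g hg
    · simp only [List.mem_singleton] at hg
      rw [hg]
      exact hf0
  · intro I P hP hI hfP
    by_cases hin : InSg w I b
    · -- a minimal prime below `P`
      have hKP : K I ≤ P := by
        refine sup_le ?_ ?_
        · rw [Ideal.span_le]
          intro x hx
          simp only [Set.mem_ofPred_eq, List.mem_map] at hx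
          obtain ⟨g, hg, rfl⟩ := hx
          exact hfP g (by simp [hg])
        · rw [Ideal.span_le]
          rintro _ ⟨i, hi, rfl⟩
          exact (hI i).2 hi
      obtain ⟨Q, hQ, hQP⟩ := Ideal.exists_minimalPrimes_le hKP
      have hQp : Q.IsPrime := hQ.1.1
      have hQS₂ : Q ∈ S₂ := Set.mem_iUnion.2 ⟨I, hQ⟩
      have hKQ : K I ≤ Q := hQ.1.2
      have hIQ : ∀ i, toLoc (X i : MvPolynomial ι k) ∈ Q ↔ i ∉ I := by
        intro i
        constructor
        · intro hi
          exact (hI i).1 (hQP hi)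
        · intro hi
          apply hKQ
          apply Ideal.mem_sup_right
          exact Ideal.subset_span ⟨i, hi, rfl⟩
      have hsup : sup Q = I := by
        ext i
        simp [sup, hIQ]
      have hfQ : toLoc f ∉ Q := hfS Q ⟨Or.inr hQS₂, by rwa [hsup]⟩
      have hd : ringKrullDim (Loc ι k ⧸ P) + 1 ≤ ringKrullDim (Loc ι k ⧸ Q) :=
        quot_drop P Q hQP (toLoc f) (hfP f (by simp)) hfQ
      have h7 := h.dim I Q hQp hIQ (by
        intro g hg
        apply hKQ
        apply Ideal.mem_sup_left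
        apply Ideal.subset_span
        exact List.mem_map.2 ⟨g, hg, rfl⟩)
      have h8 : (bs ++ [b]).countP (fun b => @decide (InSg w I b) (Classical.dec _)) =
          bs.countP (fun b => @decide (InSg w I b) (Classical.dec _)) + 1 := by
        rw [List.countP_append]
        simp [hin]
      rw [h8]
      refine le_trans ?_ h7
      rw [Nat.cast_add, Nat.cast_one, add_comm ((bs.countP _ : ℕ) : WithBot ℕ∞), ← add_assoc]
      gcongr
    · have h8 : (bs ++ [b]).countP (fun b => @decide (InSg w I b) (Classical.dec _)) =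
          bs.countP (fun b => @decide (InSg w I b) (Classical.dec _)) := by
        rw [List.countP_append]
        simp [hin]
      rw [h8]
      exact h.dim I P hP hI (fun g hg => hfP g (by simp [hg]))

open Classical in
theorem exists_inv [Fintype ι] [Infinite k] (w : ι → ℕ) (bs : List ℕ)
    (hlen : bs.length = Fintype.card ι) (hb : ∀ b ∈ bs, 0 < b)
    (hcond : ∀ I : Finset ι, I.card ≤ bs.countP (fun b => @decide (InSg w I b) (Classical.dec _))) :
    ∃ fs : List (MvPolynomial ι k), Inv w bs fs := by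
  have key : ∀ j ≤ bs.length, ∃ fs : List (MvPolynomial ι k), Inv w (bs.take j) fs := by
    intro j
    induction j with
    | zero => exact fun _ => ⟨[], by simpa using Inv.nil w⟩
    | succ j ih =>
      intro hj
      obtain ⟨fs, hfs⟩ := ih (by omega)
      have hj' : j < bs.length := by omega
      obtain ⟨f, hf⟩ := Inv.step w (bs.take j) fs hfs bs[j] (bs.length - 1 - j)
        (hb _ (List.getElem_mem hj')) (by rw [List.length_take]; omega) (by
          intro I
          have h1 := hcond I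
          have h2 : bs = bs.take j ++ (bs[j] :: bs.drop (j + 1)) := by
            rw [List.getElem_cons_drop, List.take_append_drop]
          rw [h2, List.countP_append, List.countP_cons] at h1
          have h3 : (bs.drop (j + 1)).countP (fun b => @decide (InSg w I b) (Classical.dec _)) ≤
            bs.length - 1 - j := by
            refine List.countP_le_length.trans ?_
            rw [List.length_drop]
            omega
          simp only [decide_eq_true_eq] at h1
          omega)
      refine ⟨fs ++ [f], ?_⟩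
      rwa [← List.take_append_getElem hj']
  obtain ⟨fs, hfs⟩ := key bs.length le_rfl
  exact ⟨fs, by simpa using hfs⟩

end Pool.Agent.TH416.CI
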