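import Pool.Agent.TH416.CI.Choice

set_option autoImplicit false

/-!
# Hilbert series
-/

namespace Pool.Agent.TH416.CI

open RingTheory.Sequence IsLocalRing Pointwise MvPolynomial Module

variable {ι : Type} {k : Type} [Field k]

theorem whc_mul {w : ι → ℕ} {b : ℕ} {g : MvPolynomial ι k} (hg : IsWeightedHomogeneous w g b)
    (s : MvPolynomial ι k) (e : ℕ) :
    weightedHomogeneousComponent w e (s * g) =
      if b ≤ e then weightedHomogeneousComponent w (e - b) s * g else 0 := by
  classical
  split_ifs with hbe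
  · ext d
    rw [coeff_weightedHomogeneousComponent, coeff_mul, coeff_mul]
    by_cases hd : Finsupp.weight w d = e
    · rw [if_pos hd]
      refine Finset.sum_congr rfl fun x hx => ?_
      rw [Finset.HasAntidiagonal.mem_antidiagonal] at hx
      rw [coeff_weightedHomogeneousComponent]
      by_cases h0 : coeff x.2 g = 0
      · rw [h0, mul_zero, mul_zero]
      · have h1 := hg h0
        have h2 : Finsupp.weight w x.1 + Finsupp.weight w x.2 = e := by
          rw [← map_add, hx, hd]
        rw [if_pos (by omega)]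
    · rw [if_neg hd]
      symm
      refine Finset.sum_eq_zero fun x hx => ?_
      rw [Finset.HasAntidiagonal.mem_antidiagonal] at hx
      rw [coeff_weightedHomogeneousComponent]
      by_cases h0 : coeff x.2 g = 0
      · rw [h0, mul_zero]
      · have h1 := hg h0
        have h2 : Finsupp.weight w x.1 + Finsupp.weight w x.2 ≠ e := by
          rwa [← map_add, hx]
        rw [if_neg (by omega), zero_mul]
  · ext d
    rw [coeff_weightedHomogeneousComponent, coeff_zero]
    split_ifs with hd
    · rw [coeff_mul]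
      refine Finset.sum_eq_zero fun x hx => ?_
      rw [Finset.HasAntidiagonal.mem_antidiagonal] at hx
      by_cases h0 : coeff x.2 g = 0
      · rw [h0, mul_zero]
      · have h1 := hg h0
        have h2 : Finsupp.weight w x.1 + Finsupp.weight w x.2 = e := by
          rw [← map_add, hx, hd]
        omega
    · rfl

/-- homogeneous ideals -/
def Hom (w : ι → ℕ) (J : Ideal (MvPolynomial ι k)) : Prop :=
  ∀ g ∈ J, ∀ e, weightedHomogeneousComponent w e g ∈ J

theorem hom_span (w : ι → ℕ) (S : Set (MvPolynomial ι k))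
    (hS : ∀ f ∈ S, ∃ b, IsWeightedHomogeneous w f b) : Hom w (Ideal.span S) := by
  have key : ∀ g ∈ Ideal.span S, ∀ a : MvPolynomial ι k, ∀ e,
      weightedHomogeneousComponent w e (a * g) ∈ Ideal.span S := by
    intro g hg
    induction hg using Submodule.span_induction with
    | mem f hf =>
      intro a e
      obtain ⟨b, hb⟩ := hS f hf
      rw [whc_mul hb]
      split_ifs
      · exact Ideal.mul_mem_left _ _ (Ideal.subset_span hf)
      · exact Ideal.zero_mem _
    | zero => simp
    | add x y _ _ hx hy =>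
      intro a e
      rw [mul_add, map_add]
      exact Ideal.add_mem _ (hx a e) (hy a e)
    | smul c x _ hx =>
      intro a e
      rw [smul_eq_mul, ← mul_assoc]
      exact hx _ e
  intro g hg e
  simpa using key g hg 1 e

/-- transfer of regularity from the local ring -/
theorem transfer {w : ι → ℕ} (hw : ∀ i, 0 < w i) (fs : List (MvPolynomial ι k))
    (hfs : ∀ f ∈ fs, ∃ b, IsWeightedHomogeneous w f b) (f : MvPolynomial ι k)
    (hreg : IsWeaklyRegular (Loc ι k) ((fs ++ [f]).map toLoc)) (e : ℕ) (g : MvPolynomial ι k)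
    (hg : IsWeightedHomogeneous w g e) (hfg : f * g ∈ Ideal.ofList fs) : g ∈ Ideal.ofList fs := by
  rw [List.map_append, isWeaklyRegular_append_iff, List.map_cons, List.map_nil,
    isWeaklyRegular_cons_iff] at hreg
  have h1 := hreg.2.1
  rw [isSMulRegular_quotient_iff_mem_of_smul_mem] at h1
  have hmap : (Ideal.ofList (fs.map toLoc) • (⊤ : Submodule (Loc ι k) (Loc ι k)) :
      Submodule (Loc ι k) (Loc ι k)) = (Ideal.ofList fs).map (toLoc (ι := ι) (k := k)) := by
    rw [smul_eq_mul, Ideal.mul_top, Ideal.map_ofList]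
  have h2 := h1 (toLoc g) (by
    rw [hmap, smul_eq_mul, ← map_mul]
    exact Ideal.mem_map_of_mem _ hfg)
  rw [hmap] at h2
  rw [IsLocalization.algebraMap_mem_map_algebraMap_iff (orig ι k).primeCompl] at h2
  obtain ⟨s, hs, hsg⟩ := h2
  have h3 := hom_span w {x | x ∈ fs} hfs (s * g) hsg e
  rw [whc_mul hg, if_pos le_rfl, Nat.sub_self,
    weightedHomogeneousComponent_zero _ (fun i => (hw i).ne')] at h3
  have hs0 : coeff 0 s ≠ 0 := hs
  have h4 := Ideal.mul_mem_left (Ideal.span {x | x ∈ fs}) (C (coeff 0 s)⁻¹) h3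
  rw [← mul_assoc, ← C_mul, inv_mul_cancel₀ hs0, C_1, one_mul] at h4
  exact h4

/-- graded pieces of an ideal -/
noncomputable def Jd (w : ι → ℕ) (J : Ideal (MvPolynomial ι k)) (e : ℕ) :
    Submodule k (MvPolynomial ι k) :=
  J.restrictScalars k ⊓ weightedHomogeneousSubmodule k w e

/-- the Hilbert function of the quotient by a homogeneous ideal -/
noncomputable def hJ (w : ι → ℕ) (J : Ideal (MvPolynomial ι k)) (e : ℕ) : ℤ :=
  (finrank k (weightedHomogeneousSubmodule k w e) : ℤ) - finrank k (Jd w J e)

theorem fin_whs [Finite ι] {w : ι → ℕ} (hw : ∀ i, 0 < w i) (e : ℕ) :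
    FiniteDimensional k (weightedHomogeneousSubmodule k w e) := by
  rw [FiniteDimensional, Module.Finite.iff_fg]
  exact weightedHomogeneousSubmodule_fg _ w (fun i => (hw i).ne') e

theorem fin_Jd [Finite ι] {w : ι → ℕ} (hw : ∀ i, 0 < w i) (J : Ideal (MvPolynomial ι k)) (e : ℕ) :
    FiniteDimensional k (Jd w J e) := by
  have := fin_whs (k := k) hw e
  exact Submodule.finiteDimensional_of_le inf_le_right

theorem hJ_nonneg [Finite ι] {w : ι → ℕ} (hw : ∀ i, 0 < w i) (J : Ideal (MvPolynomial ι k))
    (e : ℕ) : 0 ≤ hJ w J e := by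
  have := fin_whs (k := k) hw e
  have h : finrank k (Jd w J e) ≤ finrank k (weightedHomogeneousSubmodule k w e) :=
    Submodule.finrank_mono inf_le_right
  unfold hJ
  omega

theorem Jd_step [Finite ι] {w : ι → ℕ} (hw : ∀ i, 0 < w i) (J : Ideal (MvPolynomial ι k))
    (hJ' : Hom w J) (f : MvPolynomial ι k) (hf0 : f ≠ 0) (b : ℕ) (hf : IsWeightedHomogeneous w f b)
    (hreg : ∀ e g, IsWeightedHomogeneous w g e → f * g ∈ J → g ∈ J) (e : ℕ) :
    hJ w (J ⊔ Ideal.span {f}) e = hJ w J e - (if b ≤ e then hJ w J (e - b) else 0) := by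
  unfold hJ
  have hdec : ∀ x, x ∈ J ⊔ Ideal.span {f} → IsWeightedHomogeneous w x e →
      ∃ j ∈ J, ∃ r, x = weightedHomogeneousComponent w e j +
        (if b ≤ e then f * weightedHomogeneousComponent w (e - b) r else 0) := by
    intro x hx hxe
    obtain ⟨j, hj, y, hy, rfl⟩ := Submodule.mem_sup.1 hx
    obtain ⟨r, rfl⟩ := Ideal.mem_span_singleton'.1 hy
    refine ⟨j, hj, r, ?_⟩
    have h1 := hxe.weightedHomogeneousComponent_same
    rw [map_add, whc_mul hf] at h1
    rw [← h1]
    congr 1
    split_ifs
    · ring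
    · rfl
  split_ifs with hbe
  · set V := weightedHomogeneousSubmodule k w (e - b) with hV
    set L : MvPolynomial ι k →ₗ[k] MvPolynomial ι k := LinearMap.mulLeft k f with hL
    have hLinj : Function.Injective L := by
      intro x y hxy
      simp only [hL, LinearMap.mulLeft_apply] at hxy
      exact mul_left_cancel₀ hf0 hxy
    have hfV : ∀ g, IsWeightedHomogeneous w g (e - b) → IsWeightedHomogeneous w (f * g) e := by
      intro g hg
      have := hf.mul hg
      rwa [Nat.add_sub_cancel' hbe] at this
    have h1 : Jd w (J ⊔ Ideal.span {f}) e = Jd w J e ⊔ V.map L := by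
      apply le_antisymm
      · rintro x ⟨hx1, hx2⟩
        obtain ⟨j, hj, r, hr⟩ := hdec x hx1 hx2
        rw [if_pos hbe] at hr
        rw [hr]
        apply Submodule.add_mem_sup
        · exact ⟨hJ' j hj e, weightedHomogeneousComponent_mem _ _ _⟩
        · exact ⟨_, weightedHomogeneousComponent_mem _ _ _, rfl⟩
      · refine sup_le ?_ ?_
        · rintro x ⟨hx1, hx2⟩
          exact ⟨Ideal.mem_sup_left hx1, hx2⟩
        · rintro _ ⟨g, hg, rfl⟩
          refine ⟨Ideal.mem_sup_right ?_, hfV g hg⟩
          exact Ideal.mul_mem_right _ _ (Ideal.mem_span_singleton_self f)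
    have h2 : Jd w J e ⊓ V.map L = (Jd w J (e - b)).map L := by
      apply le_antisymm
      · rintro _ ⟨⟨hx1, hx2⟩, ⟨g, hg, rfl⟩⟩
        exact ⟨g, ⟨hreg _ g hg hx1, hg⟩, rfl⟩
      · rintro _ ⟨g, ⟨hg1, hg2⟩, rfl⟩
        refine ⟨⟨Ideal.mul_mem_left _ _ hg1, hfV g hg2⟩, ⟨g, hg2, rfl⟩⟩
    have := fin_Jd (k := k) hw J e
    have := fin_Jd (k := k) hw J (e - b)
    have := fin_whs (k := k) hw (e - b)
    have h3 := Submodule.finrank_sup_add_finrank_inf_eq (Jd w J e) (V.map L)
    rw [← h1, h2, ← (Submodule.equivMapOfInjective L hLinj V).finrank_eq,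
      ← (Submodule.equivMapOfInjective L hLinj (Jd w J (e - b))).finrank_eq] at h3
    have h4 : finrank k (Jd w J (e - b)) ≤ finrank k V := Submodule.finrank_mono inf_le_right
    omega
  · have h1 : Jd w (J ⊔ Ideal.span {f}) e = Jd w J e := by
      apply le_antisymm
      · rintro x ⟨hx1, hx2⟩
        obtain ⟨j, hj, r, hr⟩ := hdec x hx1 hx2
        rw [if_neg hbe, add_zero] at hr
        rw [hr]
        exact ⟨hJ' j hj e, weightedHomogeneousComponent_mem _ _ _⟩
      · rintro x ⟨hx1, hx2⟩
        exact ⟨Ideal.mem_sup_left hx1, hx2⟩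
    rw [h1]
    ring

/-- graded regular sequences -/
inductive GReg (w : ι → ℕ) : List ℕ → List (MvPolynomial ι k) → Prop
  | nil : GReg w [] []
  | snoc (bs : List ℕ) (fs : List (MvPolynomial ι k)) (b : ℕ) (f : MvPolynomial ι k)
    (h : GReg w bs fs) (hhom : ∀ g ∈ fs, ∃ c, IsWeightedHomogeneous w g c) (hf0 : f ≠ 0)
    (hf : IsWeightedHomogeneous w f b)
    (hreg : ∀ e g, IsWeightedHomogeneous w g e → f * g ∈ Ideal.ofList fs → g ∈ Ideal.ofList fs) :
    GReg w (bs ++ [b]) (fs ++ [f])

theorem greg_of {w : ι → ℕ} (hw : ∀ i, 0 < w i) (fs : List (MvPolynomial ι k)) :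
    ∀ bs : List ℕ, List.Forall₂ (fun f b => IsWeightedHomogeneous w f b) fs bs →
    IsWeaklyRegular (Loc ι k) (fs.map toLoc) → (∀ f ∈ fs, constantCoeff f = 0) → GReg w bs fs := by
  induction fs using List.reverseRecOn with
  | nil =>
    intro bs hbs _ _
    rw [List.forall₂_nil_left_iff] at hbs
    rw [hbs]
    exact GReg.nil
  | append_singleton fs f ih =>
    intro bs hbs hreg hmem
    rcases List.eq_nil_or_concat' bs with rfl | ⟨bs', b, rfl⟩
    · simpa using hbs.length_eq
    · have hlen : fs.length = bs'.length := by simpa using hbs.length_eq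
      have h1 : List.Forall₂ (fun f b => IsWeightedHomogeneous w f b) fs bs' := by
        have := List.forall₂_take fs.length hbs
        rwa [List.take_left, hlen, List.take_left] at this
      have h2 : IsWeightedHomogeneous w f b := by
        have := List.forall₂_drop fs.length hbs
        rw [List.drop_left, hlen, List.drop_left] at this
        simpa using this
      have hhom : ∀ g ∈ fs, ∃ c, IsWeightedHomogeneous w g c := by
        intro g hg
        obtain ⟨n, hn, rfl⟩ := List.mem_iff_getElem.1 hg
        exact ⟨bs'[n]'(by omega), (List.forall₂_iff_get.1 h1).2 n hn (by omega)⟩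
      have hr : IsWeaklyRegular (Loc ι k) (fs.map toLoc) := by
        rw [List.map_append, isWeaklyRegular_append_iff] at hreg
        exact hreg.1
      have htr := transfer hw fs hhom f hreg
      refine GReg.snoc bs' fs b f (ih bs' h1 hr (fun g hg => hmem g (by simp [hg]))) hhom ?_ h2 htr
      rintro rfl
      have h1 := htr 0 1 (isWeightedHomogeneous_one k w) (by simp)
      have hle : Ideal.ofList fs ≤ orig ι k := by
        rw [Ideal.ofList, Ideal.span_le]
        intro g hg
        exact hmem g (List.mem_append_left _ hg)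
      have h3 : (1 : MvPolynomial ι k) ∈ orig ι k := hle h1
      rw [RingHom.mem_ker, map_one] at h3
      exact one_ne_zero h3

/-- Hilbert series -/
noncomputable def Hs (w : ι → ℕ) (J : Ideal (MvPolynomial ι k)) : PowerSeries ℤ :=
  PowerSeries.mk (hJ w J)

theorem Hs_of_GReg [Finite ι] {w : ι → ℕ} (hw : ∀ i, 0 < w i) (bs : List ℕ)
    (fs : List (MvPolynomial ι k)) (h : GReg w bs fs) :
    Hs w (Ideal.ofList fs) = (bs.map (fun b => (1 : PowerSeries ℤ) - PowerSeries.X ^ b)).prod *
      Hs w (⊥ : Ideal (MvPolynomial ι k)) := by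
  induction h with
  | nil => simp
  | snoc bs fs b f h hhom hf0 hf hreg ih =>
    rw [Ideal.ofList_append, Ideal.ofList_singleton, List.map_append, List.prod_append,
      mul_comm (List.prod _), mul_assoc, ← ih, List.map_singleton, List.prod_singleton]
    ext e
    rw [sub_mul, one_mul, map_sub, PowerSeries.coeff_X_pow_mul', Hs, Hs, PowerSeries.coeff_mk,
      PowerSeries.coeff_mk, PowerSeries.coeff_mk]
    exact Jd_step hw (Ideal.ofList fs) (hom_span w _ hhom) f hf0 b hf hreg e

theorem Hs_orig [Finite ι] {w : ι → ℕ} (hw : ∀ i, 0 < w i) : Hs w (orig ι k) = 1 := by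
  classical
  ext e
  rw [Hs, PowerSeries.coeff_mk, PowerSeries.coeff_one, hJ]
  split_ifs with he
  · subst he
    have h1 : weightedHomogeneousSubmodule k w 0 = k ∙ (1 : MvPolynomial ι k) := by
      apply le_antisymm
      · intro x hx
        have h2 := IsWeightedHomogeneous.weightedHomogeneousComponent_same (w := w) hx
        rw [weightedHomogeneousComponent_zero _ (fun i => (hw i).ne')] at h2
        rw [← h2, Submodule.mem_span_singleton]
        exact ⟨coeff 0 x, by rw [smul_eq_C_mul, mul_one]⟩
      · rw [Submodule.span_le, Set.singleton_subset_iff]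
        exact isWeightedHomogeneous_one k w
    have h2 : Jd w (orig ι k) 0 = ⊥ := by
      rw [eq_bot_iff]
      rintro x ⟨hx1, hx2⟩
      have h2 := IsWeightedHomogeneous.weightedHomogeneousComponent_same (w := w) hx2
      rw [weightedHomogeneousComponent_zero _ (fun i => (hw i).ne')] at h2
      have hx1' : constantCoeff x = 0 := hx1
      rw [constantCoeff_eq] at hx1'
      rw [Submodule.mem_bot, ← h2, hx1', C_0]
    rw [h1, h2, finrank_span_singleton one_ne_zero, finrank_bot]
    norm_num
  · have h1 : Jd w (orig ι k) e = weightedHomogeneousSubmodule k w e := by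
      apply le_antisymm
      · exact inf_le_right
      · intro x hx
        refine ⟨?_, hx⟩
        change constantCoeff x = 0
        by_contra hne
        have := hx hne
        simp at this
        exact he this.symm
    rw [h1, sub_self]

end Pool.Agent.TH416.CI
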