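import Mathlib

set_option autoImplicit false

/-!
# Depth and the dimension of associated primes

`ass_dim`: if a finite module `M` over a Noetherian local ring has a weakly regular sequence of
length `n` in the maximal ideal, then `dim A / P ≥ n` for every associated prime `P` of `M`.
-/

namespace Pool.Agent.TH416.CI

open RingTheory.Sequence IsLocalRing Pointwise

universe u

variable {A : Type u} [CommRing A] [IsLocalRing A] [IsNoetherianRing A]

/-- an element of a finite module over a Noetherian local ring that is divisible by all powers of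
an element of the maximal ideal is zero -/
theorem exists_not_mem_smul_top {M : Type*} [AddCommGroup M] [Module A M] [Module.Finite A M]
    {r : A} (hr : r ∈ maximalIdeal A) (x : M) (hx : x ≠ 0) :
    ∃ (n : ℕ) (y : M), x = r ^ n • y ∧ y ∉ (r • (⊤ : Submodule A M)) := by
  by_contra hcon
  push Not at hcon
  have key : ∀ n : ℕ, ∃ y : M, x = r ^ n • y := by
    intro n
    induction n with
    | zero => exact ⟨x, by simp⟩
    | succ n ih =>
      obtain ⟨y, hy⟩ := ih
      have h := hcon n y hy
      rw [Submodule.mem_smul_pointwise_iff_exists] at h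
      obtain ⟨z, -, hz⟩ := h
      exact ⟨z, by rw [hy, ← hz, smul_smul, pow_succ]⟩
  have hne : Ideal.span {r} ≠ ⊤ := by
    intro h
    have h1 : Ideal.span {r} ≤ maximalIdeal A := by
      rw [Ideal.span_le]
      simpa using hr
    rw [h] at h1
    exact (maximalIdeal.isMaximal A).ne_top (top_le_iff.1 h1)
  have h0 := Ideal.iInf_pow_smul_eq_bot_of_isLocalRing (M := M) (Ideal.span {r}) hne
  apply hx
  have hmem : x ∈ (⨅ i : ℕ, (Ideal.span {r}) ^ i • (⊤ : Submodule A M)) := by
    rw [Submodule.mem_iInf]
    intro n
    obtain ⟨y, hy⟩ := key n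
    rw [hy, Ideal.span_singleton_pow]
    exact Submodule.smul_mem_smul (Ideal.mem_span_singleton_self _) trivial
  rw [h0] at hmem
  simpa using hmem

/-- the depth is at most the dimension at an associated prime -/
theorem ass_dim (rs : List A) (hrs : ∀ r ∈ rs, r ∈ maximalIdeal A) :
    ∀ (M : Type u) [AddCommGroup M] [Module A M] [Module.Finite A M],
      IsWeaklyRegular M rs → ∀ P : Ideal A, P ∈ associatedPrimes A M →
        (rs.length : WithBot ℕ∞) ≤ ringKrullDim (A ⧸ P) := by
  induction rs with
  | nil =>
    intro M _ _ _ _ P hP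
    have hp : P.IsPrime := hP.isPrime
    have : Nontrivial (A ⧸ P) := Ideal.Quotient.nontrivial_iff.2 hp.ne_top
    simpa using ringKrullDim_nonneg_of_nontrivial (R := A ⧸ P)
  | cons r rs ih =>
    intro M _ _ _ hreg P hP
    rw [isWeaklyRegular_cons_iff] at hreg
    obtain ⟨hr, hreg'⟩ := hreg
    have hrm : r ∈ maximalIdeal A := hrs r (by simp)
    rw [AssociatedPrimes.mem_iff, isAssociatedPrime_iff] at hP
    obtain ⟨hPp, x, hx⟩ := hP
    have hx0 : x ≠ 0 := by
      rintro rfl
      apply hPp.ne_top
      rw [hx, Ideal.eq_top_iff_one, Submodule.mem_colon_singleton]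
      simp
    obtain ⟨n, y, hxy, hy⟩ := exists_not_mem_smul_top hrm x hx0
    have hrn : IsSMulRegular M (r ^ n) := hr.pow n
    have hPy : ∀ a ∈ P, a • y = 0 := by
      intro a ha
      rw [hx, Submodule.mem_colon_singleton] at ha
      apply hrn
      change r ^ n • a • y = r ^ n • (0 : M)
      rw [smul_zero, smul_comm, ← hxy]
      simpa using ha
    have hry : r ∉ P := by
      intro h
      have := hPy r h
      have hy0 : y = 0 := hr (by simpa using this)
      exact hx0 (by rw [hxy, hy0, smul_zero])
    set y' : QuotSMulTop r M := Submodule.Quotient.mk y with hy'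
    have hy'0 : y' ≠ 0 := by
      intro h
      rw [hy', Submodule.Quotient.mk_eq_zero] at h
      exact hy h
    obtain ⟨Q, hQ, hQle⟩ := exists_le_isAssociatedPrime_of_isNoetherianRing A y' hy'0
    have hQp : Q.IsPrime := hQ.isPrime
    have hPQ : P ≤ Q := by
      intro a ha
      apply hQle
      rw [Submodule.mem_colon_singleton, hy', ← Submodule.Quotient.mk_smul, hPy a ha]
      simp
    have hrQ : r ∈ Q := by
      apply hQle
      rw [Submodule.mem_colon_singleton, hy', ← Submodule.Quotient.mk_smul]
      have : r • y ∈ r • (⊤ : Submodule A M) := Submodule.smul_mem_pointwise_smul y r ⊤ trivial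
      rw [Submodule.mem_bot, Submodule.Quotient.mk_eq_zero]
      exact this
    have h1 := ih (fun s hs => hrs s (by simp [hs])) (QuotSMulTop r M) hreg' Q hQ
    have h2 : ringKrullDim (A ⧸ Q) + 1 ≤ ringKrullDim (A ⧸ P) := by
      apply ringKrullDim_succ_le_of_surjective (Ideal.Quotient.factor hPQ)
        (Ideal.Quotient.factor_surjective hPQ) (r := Ideal.Quotient.mk P r)
      · rw [mem_nonZeroDivisors_iff_ne_zero]
        intro h
        exact hry (Ideal.Quotient.eq_zero_iff_mem.1 h)
      · rw [Ideal.Quotient.factor_mk]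
        exact Ideal.Quotient.eq_zero_iff_mem.2 hrQ
    calc ((r :: rs).length : WithBot ℕ∞) = (rs.length : WithBot ℕ∞) + 1 := by
          simp
      _ ≤ ringKrullDim (A ⧸ Q) + 1 := by gcongr
      _ ≤ _ := h2

open CategoryTheory Abelian Limits in
/-- exchange: if there is a regular sequence of length `n + 1` in the maximal ideal on `M` and `f`
in the maximal ideal is `M`-regular, then there is one of length `n` on `M / f M` -/
theorem exchange (M : Type u) [AddCommGroup M] [Module A M] [Module.Finite A M] [Nontrivial M]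
    (n : ℕ) (rs : List A) (hlen : rs.length = n + 1) (hrs : ∀ r ∈ rs, r ∈ maximalIdeal A)
    (hreg : IsWeaklyRegular M rs) (f : A) (hf : f ∈ maximalIdeal A) (hfr : IsSMulRegular M f) :
    ∃ ts : List A, ts.length = n ∧ (∀ r ∈ ts, r ∈ maximalIdeal A) ∧
      IsWeaklyRegular (QuotSMulTop f M) ts := by
  have hlt : ∀ (M' : Type u) [AddCommGroup M'] [Module A M'] [Module.Finite A M'] [Nontrivial M'],
      (maximalIdeal A) • (⊤ : Submodule A M') < ⊤ := by
    intro M' _ _ _ _
    rw [lt_top_iff_ne_top]
    intro h
    have h2 := Submodule.eq_bot_of_le_smul_of_le_jacobson_bot (maximalIdeal A)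
      (⊤ : Submodule A M') Module.Finite.fg_top h.ge (IsLocalRing.maximalIdeal_le_jacobson _)
    exact top_ne_bot h2
  let N : ModuleCat.{u} A := ModuleCat.of A (A ⧸ maximalIdeal A)
  have hsupp : Module.support A N = PrimeSpectrum.zeroLocus (maximalIdeal A) := by
    change Module.support A (A ⧸ maximalIdeal A) = _
    rw [Module.support_eq_zeroLocus, Ideal.annihilator_quotient]
  have hR : IsRegular M rs :=
    RingTheory.Sequence.IsRegular.of_isWeaklyRegular_of_mem_maximalIdeal M hrs hreg
  have hext : ∀ i < n + 1, Subsingleton (Ext N (ModuleCat.of A M) i) := by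
    intro i hi
    have := ModuleCat.subsingleton_ext_of_exists_isRegular (maximalIdeal A) N hsupp.subset
      (ModuleCat.of A M) (hlt M) rs hrs hR i (by omega)
    exact this
  have hext' : ∀ i < n, Subsingleton (Ext N (ModuleCat.of A (QuotSMulTop f M)) i) := by
    intro i hi
    have zero1 := AddCommGrpCat.isZero_of_iff_subsingleton.mpr (hext i (by omega))
    have zero2 := AddCommGrpCat.isZero_of_iff_subsingleton.mpr (hext (i + 1) (by omega))
    exact AddCommGrpCat.subsingleton_of_isZero <| ShortComplex.Exact.isZero_of_both_zeros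
      ((Ext.covariant_sequence_exact₃' N
        (IsSMulRegular.smulShortComplex_shortExact (M := ModuleCat.of A M) hfr)) i (i + 1) rfl)
      (zero1.eq_zero_of_src _) (zero2.eq_zero_of_tgt _)
  have : Nontrivial (QuotSMulTop f M) := nontrivial_quotSMulTop_of_mem_maximalIdeal M hf
  obtain ⟨ts, h1, h2, h3⟩ := ModuleCat.exists_isRegular_of_exists_subsingleton_ext (maximalIdeal A) n
    (ModuleCat.of A (QuotSMulTop f M)) (hlt _) N hsupp hext'
  exact ⟨ts, h1, h2, h3.toIsWeaklyRegular⟩

/-- If `M` has a regular sequence of length `n + fs.length` in the maximal ideal and `fs` is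
`M`-regular, then `dim A / P ≥ n` for all associated primes `P` of `M / fs M`. -/
theorem ass_dim_after (fs : List A) (hfs : ∀ f ∈ fs, f ∈ maximalIdeal A) :
    ∀ (M : Type u) [AddCommGroup M] [Module A M] [Module.Finite A M] (n : ℕ),
      (∃ rs : List A, rs.length = n + fs.length ∧ (∀ r ∈ rs, r ∈ maximalIdeal A) ∧
        IsWeaklyRegular M rs) →
      IsWeaklyRegular M fs →
      ∀ P : Ideal A, P ∈ associatedPrimes A (M ⧸ (Ideal.ofList fs • (⊤ : Submodule A M))) →
        (n : WithBot ℕ∞) ≤ ringKrullDim (A ⧸ P) := by
  induction fs with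
  | nil =>
    rintro M _ _ _ n ⟨rs, hlen, hrs, hreg⟩ _ P hP
    have e : (M ⧸ (Ideal.ofList ([] : List A) • (⊤ : Submodule A M))) ≃ₗ[A] M :=
      Submodule.quotEquivOfEqBot _ (by simp)
    rw [_root_.LinearEquiv.AssociatedPrimes.eq e] at hP
    have := ass_dim rs hrs M hreg P hP
    rw [hlen] at this
    simpa using this
  | cons f fs ih =>
    rintro M _ _ _ n ⟨rs, hlen, hrs, hreg⟩ hfreg P hP
    rw [isWeaklyRegular_cons_iff] at hfreg
    rw [_root_.LinearEquiv.AssociatedPrimes.eq (Submodule.quotOfListConsSMulTopEquivQuotSMulTopInner M f fs)] at hP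
    by_cases hM : Nontrivial M
    · obtain ⟨ts, h1, h2, h3⟩ := exchange M (n + fs.length) rs (by simpa [add_assoc] using hlen) hrs
        hreg f (hfs f (by simp)) hfreg.1
      exact ih (fun g hg => hfs g (by simp [hg])) (QuotSMulTop f M) n ⟨ts, h1, h2, h3⟩ hfreg.2 P hP
    · rw [not_nontrivial_iff_subsingleton] at hM
      have : Subsingleton (QuotSMulTop f M) := by
        unfold QuotSMulTop
        infer_instance
      exact absurd hP (not_isAssociatedPrime_of_subsingleton)

end Pool.Agent.TH416.CI
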