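import Pool.Agent.TH416.CI.Local

set_option autoImplicit false

/-!
# The local ring of affine space at the origin, weights
-/

namespace Pool.Agent.TH416.CI

open RingTheory.Sequence IsLocalRing Pointwise MvPolynomial

variable {ι : Type} {k : Type} [Field k]

/-- distinct variables form a weakly regular sequence in a polynomial ring -/
theorem isWeaklyRegular_X (l : List ι) (hl : l.Nodup) :
    IsWeaklyRegular (MvPolynomial ι k) (l.map (X : ι → MvPolynomial ι k)) := by
  classical
  rw [isWeaklyRegular_iff]
  intro i hi
  rw [isSMulRegular_quotient_iff_mem_of_smul_mem]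
  intro x hx
  have hi' : i < l.length := by simpa using hi
  have e : Ideal.ofList (List.take i (l.map (X : ι → MvPolynomial ι k))) •
      (⊤ : Submodule (MvPolynomial ι k) (MvPolynomial ι k)) =
      Ideal.span (X '' {j : ι | j ∈ l.take i}) := by
    rw [smul_eq_mul, Ideal.mul_top, Ideal.ofList, ← List.map_take]
    congr 1
    ext y
    simp only [Set.mem_ofPred_eq, Set.mem_image, ← List.mem_map]
  rw [e] at hx ⊢
  rw [mem_ideal_span_X_image] at hx ⊢
  intro m hm
  have h1 : m + Finsupp.single l[i] 1 ∈ ((X l[i] : MvPolynomial ι k) * x).support := by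
    simp only [mem_support_iff]
    rw [coeff_X_mul' ]
    simp
    exact (mem_support_iff.1 hm)
  have h2 := hx (m + Finsupp.single l[i] 1) (by simpa using h1)
  obtain ⟨j, hj, hjm⟩ := h2
  refine ⟨j, hj, ?_⟩
  intro h0
  apply hjm
  have hne : l[i] ≠ j := by
    rintro rfl
    rw [Set.mem_ofPred_eq, List.mem_take_iff_getElem] at hj
    obtain ⟨j', hj', hjj⟩ := hj
    have := (List.Nodup.getElem_inj_iff hl).1 hjj
    omega
  simp [h0, hne]

variable (ι k) in
/-- the maximal ideal of the origin -/
noncomputable abbrev orig : Ideal (MvPolynomial ι k) := RingHom.ker (constantCoeff (σ := ι) (R := k))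

instance : (orig ι k).IsPrime := RingHom.ker_isPrime _

variable (ι k) in
/-- the local ring at the origin -/
abbrev Loc : Type := Localization.AtPrime (orig ι k)

instance [Finite ι] : IsNoetherianRing (Loc ι k) :=
  IsLocalization.isNoetherianRing (orig ι k).primeCompl _ inferInstance

/-- the localization map -/
noncomputable abbrev toLoc : MvPolynomial ι k →+* Loc ι k := algebraMap _ _

theorem toLoc_mem {f : MvPolynomial ι k} : toLoc f ∈ maximalIdeal (Loc ι k) ↔ constantCoeff f = 0 := by
  rw [IsLocalization.AtPrime.to_map_mem_maximal_iff (Loc ι k) (orig ι k), RingHom.mem_ker]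

theorem orig_eq : orig ι k = Ideal.span (Set.range (X : ι → MvPolynomial ι k)) := by
  ext f
  rw [RingHom.mem_ker, ← Set.image_univ, mem_ideal_span_X_image]
  constructor
  · intro h m hm
    by_contra hcon
    push Not at hcon
    have : m = 0 := by
      ext i
      simpa using hcon i
    rw [this, mem_support_iff] at hm
    exact hm h
  · intro h
    by_contra hcon
    obtain ⟨i, -, hi⟩ := h 0 (by rwa [mem_support_iff])
    simp at hi

theorem maximalIdeal_eq : maximalIdeal (Loc ι k) =
    Ideal.span (Set.range (fun i => toLoc (X i : MvPolynomial ι k))) := by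
  rw [← Localization.AtPrime.map_eq_maximalIdeal]
  have h := congrArg (Ideal.map (toLoc (ι := ι) (k := k))) (orig_eq (ι := ι) (k := k))
  rw [Ideal.map_span, ← Set.range_comp] at h
  exact h

/-- a prime of the local ring containing all variables outside `I` has coheight at most `#I` -/
theorem ringKrullDim_le_card [Fintype ι] (I : Finset ι) (P : Ideal (Loc ι k)) [P.IsPrime]
    (hP : ∀ i ∉ I, toLoc (X i : MvPolynomial ι k) ∈ P) :
    ringKrullDim (Loc ι k ⧸ P) ≤ (I.card : WithBot ℕ∞) := by
  classical
  have : Nontrivial (Loc ι k ⧸ P) := Ideal.Quotient.nontrivial_iff.2 (Ideal.IsPrime.ne_top inferInstance)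
  have hloc : IsLocalRing (Loc ι k ⧸ P) :=
    IsLocalRing.of_surjective' (Ideal.Quotient.mk P) Ideal.Quotient.mk_surjective
  refine (ringKrullDim_le_spanFinrank_maximalIdeal (R := Loc ι k ⧸ P)).trans ?_
  have hmax : maximalIdeal (Loc ι k ⧸ P) = Ideal.span
      ((I.image (fun i => Ideal.Quotient.mk P (toLoc (X i : MvPolynomial ι k))) : Finset _) : Set _) := by
    have h1 : maximalIdeal (Loc ι k ⧸ P) = (maximalIdeal (Loc ι k)).map (Ideal.Quotient.mk P) :=
      (map_maximalIdeal_of_surjective _ Ideal.Quotient.mk_surjective).symm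
    rw [h1, maximalIdeal_eq, Ideal.map_span]
    apply le_antisymm
    · rw [Ideal.span_le]
      rintro _ ⟨_, ⟨i, rfl⟩, rfl⟩
      by_cases hi : i ∈ I
      · apply Ideal.subset_span
        simp only [Finset.coe_image, Set.mem_image]
        exact ⟨i, hi, rfl⟩
      · have := Ideal.Quotient.eq_zero_iff_mem.2 (hP i hi)
        simp [this]
    · rw [Ideal.span_le]
      rintro _ h
      simp only [Finset.coe_image, Set.mem_image] at h
      obtain ⟨i, hi, rfl⟩ := h
      apply Ideal.subset_span
      exact ⟨_, ⟨i, rfl⟩, rfl⟩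
  rw [hmax]
  have := Submodule.spanFinrank_span_le_ncard_of_finite (R := Loc ι k ⧸ P) (M := Loc ι k ⧸ P)
    (s := ((I.image (fun i => Ideal.Quotient.mk P (toLoc (X i : MvPolynomial ι k))) : Finset _) : Set _))
    (Finset.finite_toSet _)
  have h2 := this.trans ((Set.ncard_coe_finset _).le.trans Finset.card_image_le)
  exact_mod_cast h2

end Pool.Agent.TH416.CI
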